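import Pool.Agent.Helper19.SP.LoopH

/-! Potentials with primitives: a potential is known to its frame and the primitives along it. -/

set_option autoImplicit false

namespace Pool.Agent.Helper19.SP

open Finset MvPolynomial

noncomputable section

section deg

variable {A : Type*} [CommRing A] {n : ℕ}

theorem totalDegree_bind1 {σ τ : Type*} (f : σ → MvPolynomial τ A) (hf : ∀ i, (f i).totalDegree ≤ 1)
    (P : MvPolynomial σ A) : (bind₁ f P).totalDegree ≤ P.totalDegree := by
  classical
  conv_lhs => rw [P.as_sum, map_sum]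
  apply totalDegree_finsetSum_le
  intro m hm
  rw [bind₁_monomial]
  refine (totalDegree_mul _ _).trans ?_
  rw [totalDegree_C, zero_add]
  refine (totalDegree_finsetProd _ _).trans ?_
  refine le_trans ?_ (le_totalDegree hm)
  rw [Finsupp.sum]
  apply Finset.sum_le_sum
  intro i _
  refine (totalDegree_pow _ _).trans ?_
  calc m i * (f i).totalDegree ≤ m i * 1 := Nat.mul_le_mul_left _ (hf i)
    _ = m i := mul_one _

theorem totalDegree_X_le {σ : Type*} (i : σ) : (X i : MvPolynomial σ A).totalDegree ≤ 1 := by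
  rcases subsingleton_or_nontrivial A with h | h
  · have : (X i : MvPolynomial σ A) = 0 := Subsingleton.elim _ _
    rw [this, totalDegree_zero]
    exact Nat.zero_le _
  · rw [totalDegree_X]

theorem totalDegree_SOL (Mi : Fin n → Fin n → A) (j : Fin n) : (SOL Mi j).totalDegree ≤ 1 := by
  unfold SOL
  apply totalDegree_finsetSum_le
  intro l _
  refine (totalDegree_mul _ _).trans ?_
  rw [totalDegree_C, zero_add]
  exact (totalDegree_sub _ _).trans (max_le (totalDegree_X_le _) (totalDegree_X_le _))

theorem totalDegree_QT (Mi u : Fin n → Fin n → A) (k : ℕ) (m : Fin n) : (QT Mi u k m).totalDegree ≤ 1 := by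
  unfold QT
  refine (totalDegree_add _ _).trans (max_le (totalDegree_X_le _) ?_)
  apply totalDegree_finsetSum_le
  intro l _
  split_ifs
  · refine (totalDegree_mul _ _).trans ?_
    rw [totalDegree_C, add_zero]
    exact totalDegree_SOL Mi l
  · rw [totalDegree_zero]
    exact Nat.zero_le _

theorem totalDegree_PFH (Mi u : Fin n → Fin n → A) (H : Fin n → MvPolynomial (Fin n) A) {K : ℕ}
    (hH : ∀ i, (H i).totalDegree ≤ K) : (PFH Mi u H).totalDegree ≤ K := by
  unfold PFH
  rw [totalDegree_neg]
  refine (totalDegree_bind1 _ ?_ _).trans ?_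
  · rintro (m | m)
    · exact totalDegree_X_le m
    · show (0 : MvPolynomial (Fin n) A).totalDegree ≤ 1
      rw [totalDegree_zero]
      exact Nat.zero_le _
  · unfold BH
    apply totalDegree_finsetSum_le
    intro j _
    refine (totalDegree_sub _ _).trans (max_le ?_ ?_)
    · exact (totalDegree_bind1 _ (totalDegree_QT Mi u _) _).trans (hH j)
    · exact (totalDegree_bind1 _ (totalDegree_QT Mi u _) _).trans (hH j)

/-- the last point of the broken line -/
theorem qt_last (Mi u : Fin n → Fin n → A) (hM : ∀ l m, ∑ j, Mi j l * u j m = if l = m then 1 else 0)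
    (x y : Fin n → A) : qt Mi u x y n = y := by
  funext m
  unfold qt
  have e1 : ∀ j : Fin n, (if (j : ℕ) < n then sol Mi x y j * u j m else 0) =
      ∑ l, (y l - x l) * (Mi j l * u j m) := by
    intro j
    rw [if_pos j.isLt]
    unfold sol
    rw [Finset.sum_mul]
    apply Finset.sum_congr rfl
    intro l _
    ring
  rw [Finset.sum_congr rfl fun j _ => e1 j, Finset.sum_comm]
  have e2 : ∀ l : Fin n, ∑ j : Fin n, (y l - x l) * (Mi j l * u j m) = if l = m then (y l - x l) else 0 := by
    intro l
    rw [← Finset.mul_sum, hM l m]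
    split_ifs
    · rw [mul_one]
    · rw [mul_zero]
  rw [Finset.sum_congr rfl fun l _ => e2 l, Finset.sum_ite_eq' Finset.univ m]
  rw [if_pos (Finset.mem_univ m)]
  ring

theorem qt_zero (Mi u : Fin n → Fin n → A) (x y : Fin n → A) : qt Mi u x y 0 = x := by
  funext m
  unfold qt
  rw [Finset.sum_eq_zero fun l _ => if_neg (Nat.not_lt_zero _), add_zero]

theorem qt_succ (Mi u : Fin n → Fin n → A) (x y : Fin n → A) (j : Fin n) :
    qt Mi u x y (j + 1) = fun m => qt Mi u x y j m + sol Mi x y j * u j m := by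
  classical
  funext m
  unfold qt
  rw [add_assoc]
  congr 1
  have e2 : sol Mi x y j * u j m = ∑ l : Fin n, if l = j then sol Mi x y l * u l m else 0 := by
    rw [Finset.sum_ite_eq' Finset.univ j]
    rw [if_pos (Finset.mem_univ j)]
  rw [e2, ← Finset.sum_add_distrib]
  apply Finset.sum_congr rfl
  intro l _
  by_cases h1 : (l : ℕ) < j
  · rw [if_pos h1, if_pos (by omega), if_neg (fun hc => by rw [hc] at h1; exact lt_irrefl _ h1), add_zero]
  · by_cases h2 : l = j
    · rw [if_neg h1, if_pos h2, h2, if_pos (Nat.lt_succ_self _), zero_add]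
    · have h3 : (l : ℕ) ≠ j := fun hc => h2 (Fin.ext hc)
      rw [if_neg h1, if_neg h2, if_neg (by omega), add_zero]

/-- the transport of a potential -/
theorem bh_of_pot (Mi u : Fin n → Fin n → A) (hM : ∀ l m, ∑ j, Mi j l * u j m = if l = m then 1 else 0)
    (H : Fin n → MvPolynomial (Fin n) A) (f : MvPolynomial (Fin n) A)
    (hpot : ∀ i (x : Fin n → A) (s : A), eval (fun j => x j + s * u i j) f - eval x f =
      eval (fun j => x j + s * u i j) (H i) - eval x (H i)) (x y : Fin n → A) :
    bh Mi u H x y = eval y f - eval x f := by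
  unfold bh
  have e1 : ∀ j : Fin n, eval (qt Mi u x y (j + 1)) (H j) - eval (qt Mi u x y j) (H j) =
      eval (qt Mi u x y (j + 1)) f - eval (qt Mi u x y j) f := by
    intro j
    rw [qt_succ]
    exact (hpot j (qt Mi u x y j) (sol Mi x y j)).symm
  rw [Finset.sum_congr rfl fun j _ => e1 j]
  rw [Fin.sum_univ_eq_sum_range (fun k => eval (qt Mi u x y (k + 1)) f - eval (qt Mi u x y k) f) n,
    Finset.sum_range_sub (fun k => eval (qt Mi u x y k) f) n, qt_last Mi u hM, qt_zero]

end deg

end

end Pool.Agent.Helper19.SP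

namespace Pool.Agent.Helper38.NS

open Pool.Agent.Helper31.EC QS Pool.Agent.Helper19.SP

noncomputable section

/-- potential identities with primitives: `f(x + s v) - f(x) = H(x + s v) - H(x)` -/
def PotH {W : Sp} {D : ℕ} (f : MvPolynomial (Fin D) (QS W)) (v : Fin D → QS W)
    (H : MvPolynomial (Fin D) (QS W)) : Prop :=
  ∀ (x : Fin D → QS W) (s : QS W), MvPolynomial.eval (fun j => x j + s * v j) f -
    MvPolynomial.eval x f = MvPolynomial.eval (fun j => x j + s * v j) H - MvPolynomial.eval x H

/-- a potential is known to the primitives along a frame -/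
theorem potH_known {W : Sp} {D : ℕ} {A B : W.L} (hAB : A ≤ B) (f : MvPolynomial (Fin D) (QS W))
    (hf : f ∈ PK B) (hf0 : f.coeff 0 = 0) (M : Matrix (Fin D) (Fin D) (QS W))
    (hM : ∀ i j, dg (M i j) 1 ≤ A) (hdet : IsUnit M.det)
    (H : Fin D → MvPolynomial (Fin D) (QS W)) (hH : ∀ i, H i ∈ PK A) (n : ℕ)
    (hn : ∀ i, (H i).totalDegree ≤ n)
    (hpot : ∀ i, PotH f (M i) (H i)) (q : Fin D → QS W) (hq : Rl q B) :
    f ∈ PK A ∧ f.totalDegree ≤ n := by
  classical
  have hinv : ∀ i j, dg (M⁻¹ i j) 1 ≤ A := inv_mem M le_rfl _ hM hdet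
  obtain ⟨Mi, hMi⟩ : ∃ Mi : Fin D → Fin D → QS W, ∀ j m, Mi j m = M⁻¹ m j := ⟨fun j m => M⁻¹ m j, fun _ _ => rfl⟩
  obtain ⟨u, hu⟩ : ∃ u : Fin D → Fin D → QS W, ∀ j m, u j m = M j m := ⟨fun j m => M j m, fun _ _ => rfl⟩
  have hMu : ∀ l m, ∑ j, Mi j l * u j m = if l = m then 1 else 0 := by
    intro l m
    have e1 : ∑ j, Mi j l * u j m = (M⁻¹ * M) l m := by
      rw [Matrix.mul_apply]
      apply Finset.sum_congr rfl
      intro j _
      rw [hMi, hu]
    rw [e1, Matrix.nonsing_inv_mul _ hdet, Matrix.one_apply]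
  have mMi : ∀ j l, dg (Mi j l) 1 ≤ A := fun j l => by rw [hMi]; exact hinv _ _
  have mu : ∀ j l, dg (u j l) 1 ≤ A := fun j l => by rw [hu]; exact hM _ _
  have hpot' : ∀ i (x : Fin D → QS W) (s : QS W), MvPolynomial.eval (fun j => x j + s * u i j) f -
      MvPolynomial.eval x f = MvPolynomial.eval (fun j => x j + s * u i j) (H i) -
        MvPolynomial.eval x (H i) := by
    intro i x s
    have e : (fun j => x j + s * u i j) = fun j => x j + s * M i j := funext fun j => by rw [hu]
    rw [e]
    exact hpot i x s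
  have h1 : f = PFH Mi u H := by
    apply mv_unique B q f _ hq hf (PK_mono hAB (PFH_mem mMi mu hH))
    rw [eval_PFH, bh_of_pot Mi u hMu H f hpot']
    have h2 : MvPolynomial.eval (0 : Fin D → QS W) f = 0 := by
      rw [← hf0, ← MvPolynomial.constantCoeff_eq]
      simp [MvPolynomial.eval_zero]
    rw [h2]
    ring
  rw [h1]
  exact ⟨PFH_mem mMi mu hH, totalDegree_PFH Mi u H hn⟩

end

end Pool.Agent.Helper38.NS
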